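import Pool.Agent.N728.QL.Def

/-!
# FLB: the fundamental lemma of the sieve for four forms (project QL of helper728)
-/

set_option autoImplicit false

namespace Pool.Agent.N82.QL

open Finset Pool.Agent.N728.QL

noncomputable section

lemma prod_split (f : ℕ → ℝ) {a b c : ℕ} (h1 : a ≤ b) (h2 : b ≤ c) :
    ∏ p ∈ (Ioc a c).filter Nat.Prime, f p =
      (∏ p ∈ (Ioc a b).filter Nat.Prime, f p) * ∏ p ∈ (Ioc b c).filter Nat.Prime, f p := by
  simp only [Finset.prod_filter]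
  rw [Finset.prod_Ioc_consecutive _ h1 h2]

lemma VW_split {a b c : ℕ} (h1 : a ≤ b) (h2 : b ≤ c) : VW a c = VW a b * VW b c :=
  prod_split _ h1 h2

lemma fac_pos {p : ℕ} (hp : p.Prime) : 0 < 1 - 1 / (p : ℝ) := by
  have h2 : (2 : ℝ) ≤ p := by exact_mod_cast hp.two_le
  rw [sub_pos, div_lt_one (by linarith)]
  linarith

lemma VW_pos (a b : ℕ) : 0 < VW a b :=
  Finset.prod_pos fun _ hp => fac_pos (mem_filter.1 hp).2

lemma VW_le_one (a b : ℕ) : VW a b ≤ 1 :=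
  Finset.prod_le_one (fun _ hp => (fac_pos (mem_filter.1 hp).2).le)
    (fun p _ => by
      have : (0 : ℝ) ≤ 1 / (p : ℝ) := by positivity
      linarith)

lemma one_le_prod_real (s : Finset ℕ) (f : ℕ → ℝ) (h : ∀ i ∈ s, 1 ≤ f i) : 1 ≤ ∏ i ∈ s, f i := by
  calc (1 : ℝ) = ∏ _i ∈ s, (1 : ℝ) := by simp
    _ ≤ ∏ i ∈ s, f i := Finset.prod_le_prod (fun _ _ => zero_le_one) h

lemma abs_prod_sub_one (s : Finset ℕ) (a : ℕ → ℝ) :
    |∏ i ∈ s, a i - 1| ≤ ∏ i ∈ s, (1 + |a i - 1|) - 1 := by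
  classical
  induction s using Finset.induction_on with
  | empty => simp
  | insert i s hi ih =>
    rw [Finset.prod_insert hi, Finset.prod_insert hi]
    have e : a i * ∏ j ∈ s, a j - 1 = (a i - 1) + (a i - 1) * (∏ j ∈ s, a j - 1) +
        (∏ j ∈ s, a j - 1) := by ring
    rw [e]
    calc |(a i - 1) + (a i - 1) * (∏ j ∈ s, a j - 1) + (∏ j ∈ s, a j - 1)|
        ≤ |a i - 1| + |a i - 1| * |∏ j ∈ s, a j - 1| + |∏ j ∈ s, a j - 1| := by
          refine (abs_add_le _ _).trans ?_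
          refine add_le_add_left ((abs_add_le _ _).trans ?_) _
          rw [abs_mul]
      _ ≤ |a i - 1| + |a i - 1| * (∏ j ∈ s, (1 + |a j - 1|) - 1) +
          (∏ j ∈ s, (1 + |a j - 1|) - 1) := by
          gcongr
      _ = _ := by ring

/-- the four forms -/
def nn (M : ℕ) (x θ : Fin 4 → ℤ) (c : ℤ) (i : Fin 4) (t : ℤ) : ℤ := M * x i * (t + θ i) + c

/-- the condition at `p` -/
def Cd (w y z M : ℕ) (x θ : Fin 4 → ℤ) (c : ℤ) (Sb : Finset (Fin 4)) (p : ℕ) (t : ℤ) : Prop :=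
  (w < p ∧ p ≤ y ∧ ∃ i, (p : ℤ) ∣ t + θ i) ∨ ∃ i, (p ≤ z ∨ i ∈ Sb) ∧ (p : ℤ) ∣ nn M x θ c i t

open Classical in
/-- the classes -/
def Om (w y z M : ℕ) (x θ : Fin 4 → ℤ) (c : ℤ) (Sb : Finset (Fin 4)) (p : ℕ) : Finset ℕ :=
  (range p).filter (fun s : ℕ => Cd w y z M x θ c Sb p (s : ℤ))

lemma dvd_nn_congr {M : ℕ} {x θ : Fin 4 → ℤ} {c : ℤ} {i : Fin 4} {p : ℕ} {t t' : ℤ}
    (h : (p : ℤ) ∣ t - t') : (p : ℤ) ∣ nn M x θ c i t ↔ (p : ℤ) ∣ nn M x θ c i t' := by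
  have e : nn M x θ c i t = nn M x θ c i t' + M * x i * (t - t') := by
    simp only [nn]; ring
  rw [e]
  exact (Int.dvd_add_left (Dvd.dvd.mul_left h _))

lemma Cd_congr {w y z M : ℕ} {x θ : Fin 4 → ℤ} {c : ℤ} {Sb : Finset (Fin 4)} {p : ℕ} {t t' : ℤ}
    (h : (p : ℤ) ∣ t - t') : Cd w y z M x θ c Sb p t ↔ Cd w y z M x θ c Sb p t' := by
  have e : ∀ i, ((p : ℤ) ∣ t + θ i ↔ (p : ℤ) ∣ t' + θ i) := by
    intro i
    have : t + θ i = t' + θ i + (t - t') := by ring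
    rw [this]
    exact Int.dvd_add_left h
  simp only [Cd, e, dvd_nn_congr h]

lemma not_mem_Om {w y z M : ℕ} {x θ : Fin 4 → ℤ} {c : ℤ} {Sb : Finset (Fin 4)} {p : ℕ}
    (hp : 0 < p) (t : ℤ) : (t % p).toNat ∉ Om w y z M x θ c Sb p ↔ ¬ Cd w y z M x θ c Sb p t := by
  classical
  have hp' : (0 : ℤ) < p := by exact_mod_cast hp
  have h0 : 0 ≤ t % p := Int.emod_nonneg _ hp'.ne'
  have h1 : ((t % p).toNat : ℤ) = t % p := Int.toNat_of_nonneg h0
  have h2 : (t % p).toNat < p := by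
    have := Int.emod_lt_of_pos t hp'
    omega
  have h3 : (p : ℤ) ∣ ((t % p).toNat : ℤ) - t := by
    rw [h1, Int.emod_def]
    exact ⟨-(t / p), by ring⟩
  rw [Om, mem_filter, mem_range, Cd_congr h3, not_and]
  exact ⟨fun h => h h2, fun h _ => h⟩

lemma roots_card {p : ℕ} (hp : p.Prime) (a θ c : ℤ) (h : ¬ ((p : ℤ) ∣ a ∧ (p : ℤ) ∣ c)) :
    ((range p).filter (fun s : ℕ => (p : ℤ) ∣ a * ((s : ℤ) + θ) + c)).card ≤ 1 := by
  rw [Finset.card_le_one]
  intro s hs s' hs'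
  rw [mem_filter, mem_range] at hs hs'
  have h1 : (p : ℤ) ∣ a * ((s : ℤ) - s') := by
    have := Int.dvd_sub hs.2 hs'.2
    have e : a * ((s : ℤ) + θ) + c - (a * ((s' : ℤ) + θ) + c) = a * ((s : ℤ) - s') := by ring
    rwa [e] at this
  have hp' : Prime (p : ℤ) := Nat.prime_iff_prime_int.1 hp
  rcases hp'.dvd_or_dvd h1 with h2 | h2
  · exfalso
    apply h
    refine ⟨h2, ?_⟩
    exact (Int.dvd_add_right (Dvd.dvd.mul_right h2 _)).1 hs.2
  · have h3 : (s : ℤ) - s' = 0 := by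
      apply Int.eq_zero_of_abs_lt_dvd h2
      rw [abs_lt]
      constructor <;> omega
    omega

lemma roots_exists {p : ℕ} (hp : p.Prime) (a θ c : ℤ) (h : ¬ (p : ℤ) ∣ a) :
    ∃ s ∈ range p, (p : ℤ) ∣ a * ((s : ℤ) + θ) + c := by
  have hp' : (0 : ℤ) < p := by exact_mod_cast hp.pos
  have hpp : Prime (p : ℤ) := Nat.prime_iff_prime_int.1 hp
  obtain ⟨u, v, huv⟩ : IsCoprime a (p : ℤ) := (hpp.coprime_iff_not_dvd.2 h).symm
  refine ⟨((-θ - c * u) % p).toNat, ?_, ?_⟩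
  · rw [mem_range]
    have := Int.emod_lt_of_pos (-θ - c * u) hp'
    have := Int.emod_nonneg (-θ - c * u) hp'.ne'
    omega
  · rw [Int.toNat_of_nonneg (Int.emod_nonneg _ hp'.ne'), Int.emod_def]
    refine ⟨c * v - a * ((-θ - c * u) / p), ?_⟩
    have e : c * (u * a + v * p) = c := by rw [huv, mul_one]
    linear_combination -e

open Classical in
/-- classes of `T` -/
def NT (M : ℕ) (x θ : Fin 4 → ℤ) (c : ℤ) (T : Finset (Fin 4)) (p : ℕ) : Finset ℕ :=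
  (range p).filter (fun s : ℕ => ∃ i ∈ T, (p : ℤ) ∣ nn M x θ c i (s : ℤ))

lemma NT_card_le {M : ℕ} {x θ : Fin 4 → ℤ} {c : ℤ} (T : Finset (Fin 4)) {p : ℕ} (hp : p.Prime)
    (h : ∀ i, ¬ ((p : ℤ) ∣ M * x i ∧ (p : ℤ) ∣ c)) : (NT M x θ c T p).card ≤ T.card := by
  classical
  have h1 : NT M x θ c T p ⊆ T.biUnion (fun i => (range p).filter
      (fun s : ℕ => (p : ℤ) ∣ (M * x i) * ((s : ℤ) + θ i) + c)) := by
    intro s hs
    rw [NT, mem_filter] at hs
    obtain ⟨h2, i, hi, h3⟩ := hs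
    rw [mem_biUnion]
    exact ⟨i, hi, mem_filter.2 ⟨h2, h3⟩⟩
  refine (card_le_card h1).trans (card_biUnion_le.trans ?_)
  calc ∑ i ∈ T, _ ≤ ∑ _i ∈ T, 1 := Finset.sum_le_sum fun i _ => roots_card hp _ _ _ (h i)
    _ = T.card := by simp

lemma le_NT_card {M : ℕ} {x θ : Fin 4 → ℤ} {c : ℤ} (T : Finset (Fin 4)) {p : ℕ} (hp : p.Prime)
    (hM : ¬ p ∣ M) (hD : ¬ (p : ℤ) ∣ Dl c M x θ) : T.card ≤ (NT M x θ c T p).card := by
  classical
  have hpp : Prime (p : ℤ) := Nat.prime_iff_prime_int.1 hp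
  have hM' : ¬ (p : ℤ) ∣ M := by rwa [Int.natCast_dvd_natCast]
  have hx : ∀ i, ¬ (p : ℤ) ∣ x i := by
    intro i hi
    apply hD
    exact Dvd.dvd.mul_right (hi.trans (Finset.dvd_prod_of_mem x (mem_univ i))) _
  have hd : ∀ i j, i < j → ¬ (p : ℤ) ∣
      ((M : ℤ) * x i * x j * (θ i - θ j) + c * (x j - x i)) := by
    intro i j hij h
    apply hD
    refine Dvd.dvd.mul_left (h.trans ?_) _
    exact Finset.dvd_prod_of_mem (fun ij : Fin 4 × Fin 4 => ((M : ℤ) * x ij.1 * x ij.2 *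
      (θ ij.1 - θ ij.2) + c * (x ij.2 - x ij.1))) (mem_filter.2 ⟨mem_univ (i, j), hij⟩)
  have hr : ∀ i, ∃ s ∈ range p, (p : ℤ) ∣ (M * x i) * ((s : ℤ) + θ i) + c := fun i =>
    roots_exists hp _ _ _ (fun h => (hpp.dvd_or_dvd h).elim hM' (hx i))
  choose r hr1 hr2 using hr
  have key : ∀ i j, i < j → r i ≠ r j := by
    intro i j hij h
    apply hd i j hij
    have h1 := hr2 i
    have h2 := hr2 j
    rw [← h] at h2
    have e : ((M : ℤ) * x i * x j * (θ i - θ j) + c * (x j - x i)) =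
        x j * ((M * x i) * ((r i : ℤ) + θ i) + c) - x i * ((M * x j) * ((r i : ℤ) + θ j) + c) := by
      ring
    rw [e]
    exact Int.dvd_sub (Dvd.dvd.mul_left h1 _) (Dvd.dvd.mul_left h2 _)
  refine Finset.card_le_card_of_injOn r ?_ ?_
  · intro i hi
    rw [Finset.mem_coe, NT, mem_filter]
    exact ⟨hr1 i, i, hi, hr2 i⟩
  · intro i _ j _ h
    rcases lt_trichotomy i j with h1 | h1 | h1
    · exact absurd h (key i j h1)
    · exact h1
    · exact absurd h.symm (key j i h1)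

lemma Om_eq_low {w y z M : ℕ} {x θ : Fin 4 → ℤ} {c : ℤ} {Sb : Finset (Fin 4)} {p : ℕ}
    (h1 : p ≤ z) : Om w y z M x θ c Sb p = Om w y z M x θ c ∅ p := by
  classical
  rw [Om, Om]
  refine Finset.filter_congr fun s _ => ?_
  simp only [Cd, h1, true_or]

lemma Om_eq_mid {w y z M : ℕ} {x θ : Fin 4 → ℤ} {c : ℤ} {Sb : Finset (Fin 4)} {p : ℕ}
    (h0 : y < p) (h1 : p ≤ z) : Om w y z M x θ c Sb p = NT M x θ c univ p := by
  classical
  rw [Om, NT]
  refine Finset.filter_congr fun s _ => ?_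
  simp only [Cd, h1, true_or, not_le.2 h0, false_and, and_false, false_or, mem_univ, true_and]

lemma Om_eq_high {w y z M : ℕ} {x θ : Fin 4 → ℤ} {c : ℤ} {Sb : Finset (Fin 4)} {p : ℕ}
    (h0 : y < p) (h1 : z < p) : Om w y z M x θ c Sb p = NT M x θ c Sb p := by
  classical
  rw [Om, NT]
  refine Finset.filter_congr fun s _ => ?_
  simp only [Cd, not_le.2 h1, false_or, not_le.2 h0, false_and, and_false]

lemma Om_card_le {w y z M : ℕ} {x θ : Fin 4 → ℤ} {c : ℤ} {Sb : Finset (Fin 4)} {p : ℕ}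
    (hp : p.Prime) (h : ∀ i, ¬ ((p : ℤ) ∣ M * x i ∧ (p : ℤ) ∣ c)) :
    (Om w y z M x θ c Sb p).card ≤ 8 := by
  classical
  have h1 : Om w y z M x θ c Sb p ⊆ (univ.biUnion (fun i : Fin 4 => (range p).filter
      (fun s : ℕ => (p : ℤ) ∣ 1 * ((s : ℤ) + θ i) + 0))) ∪ NT M x θ c univ p := by
    intro s hs
    rw [Om, mem_filter] at hs
    obtain ⟨h2, h3⟩ := hs
    rw [mem_union, mem_biUnion]
    rcases h3 with ⟨_, _, i, hi⟩ | ⟨i, _, hi⟩
    · left
      exact ⟨i, mem_univ i, mem_filter.2 ⟨h2, by rwa [one_mul, add_zero]⟩⟩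
    · right
      rw [NT, mem_filter]
      exact ⟨h2, i, mem_univ i, hi⟩
  refine (card_le_card h1).trans ((card_union_le _ _).trans ?_)
  have h2 : (univ.biUnion (fun i : Fin 4 => (range p).filter
      (fun s : ℕ => (p : ℤ) ∣ 1 * ((s : ℤ) + θ i) + 0))).card ≤ 4 := by
    refine card_biUnion_le.trans ?_
    calc ∑ i : Fin 4, _ ≤ ∑ _i : Fin 4, 1 := Finset.sum_le_sum fun i _ => roots_card hp 1 (θ i) 0
          (fun h => by
            have := Int.natCast_dvd_natCast.1 (by simpa using h.1 : (p : ℤ) ∣ ((1 : ℕ) : ℤ))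
            exact hp.one_lt.ne' (Nat.dvd_one.1 this))
      _ = 4 := by simp
  have h3 := NT_card_le (M := M) (x := x) (θ := θ) (c := c) univ hp h
  rw [Finset.card_univ, Fintype.card_fin] at h3
  omega

/-! ### The factors -/

lemma facA {p : ℝ} (hp : 8 ≤ p) {s : ℕ} (hs : s ≤ 4) :
    |(1 - s / p) / (1 - 1 / p) ^ s - 1| ≤ 96 / p ^ 2 := by
  obtain ⟨u, hu⟩ : ∃ u : ℝ, u = 1 / p := ⟨_, rfl⟩
  have hu0 : 0 ≤ u := by rw [hu]; positivity
  have hu1 : u ≤ 1 / 8 := by rw [hu]; exact one_div_le_one_div_of_le (by norm_num) hp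
  have e1 : (s : ℝ) / p = s * u := by rw [hu]; ring
  have e2 : 96 / p ^ 2 = 96 * u ^ 2 := by rw [hu]; ring
  rw [e1, e2, ← hu]
  have hD : 1 / 2 ≤ (1 - u) ^ s := by
    calc (1 / 2 : ℝ) ≤ (7 / 8) ^ 4 := by norm_num
      _ ≤ (7 / 8) ^ s := pow_le_pow_of_le_one (by norm_num) (by norm_num) hs
      _ ≤ (1 - u) ^ s := pow_le_pow_left₀ (by norm_num) (by linarith) s
  have hN : |(1 - s * u) - (1 - u) ^ s| ≤ 6 * u ^ 2 := by
    rw [abs_le]
    have h3 : u ^ 3 ≤ u ^ 2 * (1 / 8) := by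
      have : u ^ 3 = u ^ 2 * u := by ring
      rw [this]; gcongr
    have h4 : u ^ 4 ≤ u ^ 2 * (1 / 64) := by
      have : u ^ 4 = u ^ 2 * (u * u) := by ring
      rw [this]; gcongr
      nlinarith
    have h30 : 0 ≤ u ^ 3 := by positivity
    have h40 : 0 ≤ u ^ 4 := by positivity
    have h20 : 0 ≤ u ^ 2 := by positivity
    interval_cases s <;> constructor <;> push_cast <;> nlinarith
  have e3 : (1 - s * u) / (1 - u) ^ s - 1 = ((1 - s * u) - (1 - u) ^ s) / (1 - u) ^ s := by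
    rw [sub_div (1 - s * u), div_self (by linarith)]
  rw [e3, abs_div, abs_of_pos (show 0 < (1 - u) ^ s by linarith), div_le_iff₀ (by linarith)]
  nlinarith [sq_nonneg u]

lemma facB {p : ℝ} (hp : 8 ≤ p) {s k : ℕ} (hs : s ≤ 4) (hk : k ≤ s) :
    |(1 - k / p) / (1 - 1 / p) ^ s - 1| ≤ 8 / p := by
  obtain ⟨u, hu⟩ : ∃ u : ℝ, u = 1 / p := ⟨_, rfl⟩
  have hu0 : 0 ≤ u := by rw [hu]; positivity
  have hu1 : u ≤ 1 / 8 := by rw [hu]; exact one_div_le_one_div_of_le (by norm_num) hp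
  have e1 : (k : ℝ) / p = k * u := by rw [hu]; ring
  have e2 : 8 / p = 8 * u := by rw [hu]; ring
  rw [e1, e2, ← hu]
  have hk' : (k : ℝ) ≤ 4 := by exact_mod_cast hk.trans hs
  have hk0 : (0 : ℝ) ≤ k := by positivity
  have hD : 1 - 4 * u ≤ (1 - u) ^ s := by
    calc 1 - 4 * u ≤ (1 - u) ^ 4 := by
          have := one_add_mul_le_pow (a := -u) (by linarith) 4
          have e : (1 + -u) ^ 4 = (1 - u) ^ 4 := by ring
          rw [e] at this
          push_cast at this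
          linarith
      _ ≤ (1 - u) ^ s := pow_le_pow_of_le_one (by linarith) (by linarith) hs
  have hD1 : (1 - u) ^ s ≤ 1 := pow_le_one₀ (by linarith) (by linarith)
  have hD0 : 0 < (1 - u) ^ s := by linarith
  rw [abs_le]
  constructor
  · have hk1 : (k : ℝ) * u ≤ 4 * u := mul_le_mul_of_nonneg_right hk' hu0
    have h1 : 1 - k * u ≤ (1 - k * u) / (1 - u) ^ s := by
      rw [le_div_iff₀ hD0]
      exact mul_le_of_le_one_right (by linarith) hD1
    nlinarith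
  · rw [sub_le_iff_le_add, div_le_iff₀ hD0]
    nlinarith

lemma facC {p : ℕ} (hp : 3 ≤ p) (k : ℕ) :
    (1 - (k : ℝ) / p) / (1 - 1 / (p : ℝ)) ^ 4 ≤ (1 + 8 / (p : ℝ)) * (if p < 8 then 2 else 1) := by
  have hp' : (3 : ℝ) ≤ p := by exact_mod_cast hp
  have h0 : (0 : ℝ) ≤ (k : ℝ) / p := by positivity
  have h1 : 0 < (1 - 1 / (p : ℝ)) ^ 4 := by
    apply pow_pos
    rw [sub_pos, div_lt_one (by linarith)]
    linarith
  refine (div_le_div_of_nonneg_right (by linarith : (1 - (k : ℝ) / p) ≤ 1) h1.le).trans ?_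
  split_ifs with h8
  · interval_cases p <;> norm_num
  · have h8' : (8 : ℝ) ≤ p := by exact_mod_cast not_lt.1 h8
    have := (abs_le.1 (facB h8' (s := 4) (k := 0) le_rfl (by norm_num))).2
    simp only [Nat.cast_zero, zero_div, sub_zero] at this
    linarith

lemma facD {p : ℕ} (hp : 2 ≤ p) :
    (1 - (4 : ℕ) / (p : ℝ)) / (1 - 1 / (p : ℝ)) ^ 4 ≤ 1 := by
  have hp' : (2 : ℝ) ≤ p := by exact_mod_cast hp
  have h1 : 0 < (1 - 1 / (p : ℝ)) := by
    rw [sub_pos, div_lt_one (by linarith)]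
    linarith
  rw [div_le_one (by positivity)]
  have := one_add_mul_le_pow (a := -(1 / (p : ℝ))) (by linarith) 4
  have e : (1 + -(1 / (p : ℝ))) ^ 4 = (1 - 1 / (p : ℝ)) ^ 4 := by ring
  rw [e] at this
  push_cast at this ⊢
  have e2 : (4 : ℝ) / p = 4 * (1 / p) := by ring
  rw [e2]
  linarith

lemma one_le_hq (s : ℕ) (D : ℤ) : 1 ≤ hq s D :=
  one_le_prod_real _ _ fun p _ => by
    have : (0 : ℝ) ≤ 8 / (p : ℝ) := by positivity
    linarith

lemma prod_sub_le {A B : Finset ℕ} (h : A ⊆ B) :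
    ∏ p ∈ A, (1 + 8 / (p : ℝ)) ≤ ∏ p ∈ B, (1 + 8 / (p : ℝ)) := by
  classical
  rw [← Finset.prod_sdiff h]
  have h1 : 1 ≤ ∏ p ∈ B \ A, (1 + 8 / (p : ℝ)) := one_le_prod_real _ _ fun p _ => by
    have : (0 : ℝ) ≤ 8 / (p : ℝ) := by positivity
    linarith
  have h2 : 0 ≤ ∏ p ∈ A, (1 + 8 / (p : ℝ)) := Finset.prod_nonneg fun p _ => by positivity
  nlinarith

lemma hq_mono {y z : ℕ} (h : y ≤ z) (D : ℤ) : hq z D ≤ hq y D :=
  prod_sub_le fun p hp => by
    rw [mem_filter] at hp ⊢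
    exact ⟨hp.1, lt_of_le_of_lt h hp.2⟩

open Classical in
lemma prod_ite_le_hq (s z1 : ℕ) {D : ℤ} (hD : D ≠ 0) :
    ∏ p ∈ (Ioc s z1).filter Nat.Prime, (if (p : ℤ) ∣ D then 1 + 8 / (p : ℝ) else 1) ≤ hq s D := by
  rw [← Finset.prod_filter]
  refine prod_sub_le fun p hp => ?_
  rw [mem_filter, mem_filter, mem_Ioc] at hp
  rw [mem_filter, Nat.mem_primeFactors]
  refine ⟨⟨hp.1.2, ?_, ?_⟩, hp.1.1.1⟩
  · exact Int.natCast_dvd.1 hp.2
  · rwa [Ne, Int.natAbs_eq_zero]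

lemma exp_le_aux {u : ℝ} (h0 : 0 ≤ u) (h1 : u ≤ 1 / 2) : Real.exp u ≤ 1 + 2 * u := by
  have := Real.exp_bound_div_one_sub_of_interval h0 (by linarith)
  refine this.trans ?_
  rw [div_le_iff₀ (by linarith)]
  nlinarith

lemma prod_sq_le {z z1 : ℕ} (hz : 192 ≤ z) (h : z ≤ z1) :
    ∏ p ∈ (Ioc z z1).filter Nat.Prime, (1 + 96 / (p : ℝ) ^ 2) ≤ 1 + 192 / (z : ℝ) := by
  have hz' : (192 : ℝ) ≤ z := by exact_mod_cast hz
  calc ∏ p ∈ (Ioc z z1).filter Nat.Prime, (1 + 96 / (p : ℝ) ^ 2)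
      ≤ ∏ p ∈ (Ioc z z1).filter Nat.Prime, Real.exp (96 / (p : ℝ) ^ 2) :=
        Finset.prod_le_prod (fun p _ => by positivity) (fun p _ => by
          rw [add_comm]; exact Real.add_one_le_exp _)
    _ = Real.exp (∑ p ∈ (Ioc z z1).filter Nat.Prime, 96 / (p : ℝ) ^ 2) := by
        rw [Real.exp_sum]
    _ ≤ Real.exp (96 / z) := by
        apply Real.exp_le_exp.2
        calc ∑ p ∈ (Ioc z z1).filter Nat.Prime, 96 / (p : ℝ) ^ 2
            ≤ ∑ p ∈ Ioc z z1, 96 / (p : ℝ) ^ 2 :=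
              Finset.sum_le_sum_of_subset_of_nonneg (filter_subset _ _)
                (fun p _ _ => by positivity)
          _ = 96 * ∑ p ∈ Ioc z z1, ((p : ℝ) ^ 2)⁻¹ := by
              rw [Finset.mul_sum]
              exact Finset.sum_congr rfl fun p _ => by rw [div_eq_mul_inv]
          _ ≤ 96 * ((z : ℝ)⁻¹ - (z1 : ℝ)⁻¹) := by
              gcongr
              exact sum_Ioc_inv_sq_le_sub (by omega) h
          _ ≤ 96 / z := by
              rw [div_eq_mul_inv]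
              have : (0 : ℝ) ≤ (z1 : ℝ)⁻¹ := by positivity
              linarith
    _ ≤ 1 + 2 * (96 / z) := by
        apply exp_le_aux (by positivity)
        rw [div_le_iff₀ (by linarith)]
        linarith
    _ = 1 + 192 / z := by ring

lemma prod_two_le (y z : ℕ) :
    ∏ p ∈ (Ioc y z).filter Nat.Prime, (if p < 8 then (2 : ℝ) else 1) ≤ 256 := by
  rw [← Finset.prod_filter, Finset.prod_const]
  have h1 : ((((Ioc y z).filter Nat.Prime).filter (fun p => p < 8))).card ≤ 8 := by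
    calc _ ≤ (range 8).card := card_le_card fun p hp => by
          rw [mem_filter] at hp
          exact mem_range.2 hp.2
      _ = 8 := by simp
  calc (2 : ℝ) ^ _ ≤ 2 ^ 8 := pow_le_pow_right₀ (by norm_num) h1
    _ = 256 := by norm_num

/-- The product over the large primes. -/
lemma high_est {z z1 M : ℕ} {x θ : Fin 4 → ℤ} {c : ℤ} (Sb : Finset (Fin 4)) (hz : 192 ≤ z)
    (h : z ≤ z1) (hD : Dl c M x θ ≠ 0)
    (hMc : ∀ p : ℕ, p.Prime → z < p → ¬ p ∣ M)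
    (hc : ∀ p : ℕ, p.Prime → ∀ i, ¬ ((p : ℤ) ∣ M * x i ∧ (p : ℤ) ∣ c)) :
    |∏ p ∈ (Ioc z z1).filter Nat.Prime,
      (1 - ((NT M x θ c Sb p).card : ℝ) / p) / (1 - 1 / (p : ℝ)) ^ Sb.card - 1| ≤
      (1 + 192 / z) * hq z (Dl c M x θ) - 1 := by
  classical
  have hSb : Sb.card ≤ 4 := by
    have := Finset.card_le_univ Sb
    rwa [Fintype.card_fin] at this
  refine (abs_prod_sub_one _ _).trans (sub_le_sub_right ?_ 1)
  calc ∏ p ∈ (Ioc z z1).filter Nat.Prime,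
      (1 + |(1 - ((NT M x θ c Sb p).card : ℝ) / p) / (1 - 1 / (p : ℝ)) ^ Sb.card - 1|)
      ≤ ∏ p ∈ (Ioc z z1).filter Nat.Prime, ((1 + 96 / (p : ℝ) ^ 2) *
        (if (p : ℤ) ∣ Dl c M x θ then 1 + 8 / (p : ℝ) else 1)) := by
        refine Finset.prod_le_prod (fun p _ => by positivity) fun p hp => ?_
        rw [mem_filter, mem_Ioc] at hp
        have hp8 : (8 : ℝ) ≤ p := by
          have : 8 ≤ p := by omega
          exact_mod_cast this
        have hle := NT_card_le (M := M) (x := x) (θ := θ) (c := c) Sb hp.2 (hc p hp.2)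
        split_ifs with hd
        · have h1 := facB hp8 hSb hle
          have h2 : (0 : ℝ) ≤ 96 / (p : ℝ) ^ 2 := by positivity
          have h3 : (0 : ℝ) ≤ 8 / (p : ℝ) := by positivity
          nlinarith [mul_nonneg h2 h3]
        · have hge := le_NT_card (x := x) (θ := θ) (c := c) Sb hp.2 (hMc p hp.2 hp.1.1) hd
          rw [le_antisymm hle hge, mul_one]
          have h1 := facA hp8 hSb
          linarith
    _ = (∏ p ∈ (Ioc z z1).filter Nat.Prime, (1 + 96 / (p : ℝ) ^ 2)) *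
        ∏ p ∈ (Ioc z z1).filter Nat.Prime,
          (if (p : ℤ) ∣ Dl c M x θ then 1 + 8 / (p : ℝ) else 1) := Finset.prod_mul_distrib
    _ ≤ (1 + 192 / z) * hq z (Dl c M x θ) := by
        refine mul_le_mul (prod_sq_le hz h) (prod_ite_le_hq z z1 hD) ?_ (by positivity)
        exact Finset.prod_nonneg fun p _ => by split_ifs <;> positivity

/-- The product over the middle primes. -/
lemma mid_est {y z M : ℕ} {x θ : Fin 4 → ℤ} {c : ℤ} (hy : 2 ≤ y) (hD : Dl c M x θ ≠ 0)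
    (hMc : ∀ p : ℕ, p.Prime → y < p → ¬ p ∣ M)
    (hc : ∀ p : ℕ, p.Prime → ∀ i, ¬ ((p : ℤ) ∣ M * x i ∧ (p : ℤ) ∣ c)) :
    ∏ p ∈ (Ioc y z).filter Nat.Prime,
      (1 - ((NT M x θ c univ p).card : ℝ) / p) / (1 - 1 / (p : ℝ)) ^ 4 ≤
      256 * hq y (Dl c M x θ) := by
  classical
  calc ∏ p ∈ (Ioc y z).filter Nat.Prime,
      (1 - ((NT M x θ c univ p).card : ℝ) / p) / (1 - 1 / (p : ℝ)) ^ 4
      ≤ ∏ p ∈ (Ioc y z).filter Nat.Prime, ((if p < 8 then (2 : ℝ) else 1) *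
        (if (p : ℤ) ∣ Dl c M x θ then 1 + 8 / (p : ℝ) else 1)) := by
        refine Finset.prod_le_prod (fun p hp => ?_) fun p hp => ?_
        · rw [mem_filter, mem_Ioc] at hp
          have h1 : (NT M x θ c univ p).card ≤ p := by
            calc _ ≤ (range p).card := card_le_card (filter_subset _ _)
              _ = p := card_range p
          have hp0 : (0 : ℝ) < p := by exact_mod_cast hp.2.pos
          have h2 : ((NT M x θ c univ p).card : ℝ) / p ≤ 1 := by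
            rw [div_le_one hp0]
            exact_mod_cast h1
          exact div_nonneg (by linarith) (pow_nonneg (fac_pos hp.2).le _)
        · rw [mem_filter, mem_Ioc] at hp
          have hle := NT_card_le (M := M) (x := x) (θ := θ) (c := c) univ hp.2 (hc p hp.2)
          by_cases hd : (p : ℤ) ∣ Dl c M x θ
          · rw [if_pos hd, mul_comm]
            exact facC (by omega) _
          · rw [if_neg hd, mul_one]
            have hge := le_NT_card (x := x) (θ := θ) (c := c) univ hp.2 (hMc p hp.2 hp.1.1) hd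
            rw [le_antisymm hle hge, Finset.card_univ, Fintype.card_fin]
            refine (facD hp.2.two_le).trans ?_
            split_ifs <;> norm_num
    _ = (∏ p ∈ (Ioc y z).filter Nat.Prime, (if p < 8 then (2 : ℝ) else 1)) *
        ∏ p ∈ (Ioc y z).filter Nat.Prime,
          (if (p : ℤ) ∣ Dl c M x θ then 1 + 8 / (p : ℝ) else 1) := Finset.prod_mul_distrib
    _ ≤ 256 * hq y (Dl c M x θ) := by
        refine mul_le_mul (prod_two_le y z) (prod_ite_le_hq y z hD) ?_ (by norm_num)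
        exact Finset.prod_nonneg fun p _ => by split_ifs <;> positivity

/-! ### Expansion -/

open Classical in
lemma ind_eq {w y z z1 M : ℕ} {x θ : Fin 4 → ℤ} {c : ℤ} (Sb : Finset (Fin 4)) (hyz : y ≤ z)
    (hz : z ≤ z1) (t : ℤ) :
    (∏ i, rg w y (t + θ i)) * ((∏ i ∈ Sb, lz z1 (nn M x θ c i t)) *
      ∏ i ∈ univ \ Sb, lz z (nn M x θ c i t)) =
      if (∀ p : ℕ, p.Prime → p ≤ z1 → ¬ Cd w y z M x θ c Sb p t) then
        ((∏ _i ∈ Sb, (VW 0 z1)⁻¹) * ∏ _i ∈ univ \ Sb, (VW 0 z)⁻¹) else 0 := by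
  split_ifs with h
  · have h1 : ∀ i, rg w y (t + θ i) = 1 := by
      intro i
      rw [rg, if_pos]
      intro p hp hw hy hd
      exact h p hp (hy.trans (hyz.trans hz)) (Or.inl ⟨hw, hy, i, hd⟩)
    have h2 : ∀ i ∈ Sb, lz z1 (nn M x θ c i t) = (VW 0 z1)⁻¹ := by
      intro i hi
      rw [lz, if_pos]
      intro p hp _ hy hd
      exact h p hp hy (Or.inr ⟨i, Or.inr hi, hd⟩)
    have h3 : ∀ i ∈ univ \ Sb, lz z (nn M x θ c i t) = (VW 0 z)⁻¹ := by
      intro i _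
      rw [lz, if_pos]
      intro p hp _ hy hd
      exact h p hp (hy.trans hz) (Or.inr ⟨i, Or.inl hy, hd⟩)
    rw [Finset.prod_congr rfl (fun i _ => h1 i), Finset.prod_congr rfl h2,
      Finset.prod_congr rfl h3, Finset.prod_const_one, one_mul]
  · push Not at h
    obtain ⟨p, hp, hpz, hC⟩ := h
    rcases hC with ⟨hw, hy, i, hd⟩ | ⟨i, hi, hd⟩
    · rw [Finset.prod_eq_zero (mem_univ i), zero_mul]
      rw [rg, if_neg]
      intro hR
      exact hR p hp hw hy hd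
    · by_cases hiS : i ∈ Sb
      · have : ∏ i ∈ Sb, lz z1 (nn M x θ c i t) = 0 := Finset.prod_eq_zero hiS (by
          rw [lz, if_neg]
          intro hR
          exact hR p hp hp.pos hpz hd)
        rw [this]; ring
      · have hpz' : p ≤ z := hi.resolve_right hiS
        have : ∏ i ∈ univ \ Sb, lz z (nn M x θ c i t) = 0 :=
          Finset.prod_eq_zero (mem_sdiff.2 ⟨mem_univ i, hiS⟩) (by
            rw [lz, if_neg]
            intro hR
            exact hR p hp hp.pos hpz' hd)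
        rw [this]; ring

lemma expand (w y z z1 M : ℕ) (x θ : Fin 4 → ℤ) (c t : ℤ) :
    ∏ i, (rg w y (t + θ i) * dz z z1 (M * x i * (t + θ i) + c)) =
      ∑ Sb ∈ (univ : Finset (Fin 4)).powerset, (∏ _i ∈ univ \ Sb, (-1 : ℝ)) *
        ((∏ i, rg w y (t + θ i)) * ((∏ i ∈ Sb, lz z1 (nn M x θ c i t)) *
          ∏ i ∈ univ \ Sb, lz z (nn M x θ c i t))) := by
  rw [Finset.prod_mul_distrib]
  have h : ∀ i, dz z z1 (M * x i * (t + θ i) + c) =
      lz z1 (nn M x θ c i t) + (-1) * lz z (nn M x θ c i t) := by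
    intro i
    rw [dz, nn]; ring
  rw [Finset.prod_congr rfl (fun i _ => h i), Finset.prod_add, Finset.mul_sum]
  refine Finset.sum_congr rfl fun Sb _ => ?_
  rw [Finset.prod_mul_distrib]; ring

lemma dvd_PP {w y p : ℕ} (hp : p.Prime) (h : p ∣ PP w y) : w < p ∧ p ≤ y := by
  rw [PP] at h
  obtain ⟨q, hq, hd⟩ := (hp.prime.dvd_finsetProd_iff _).1 h
  rw [mem_filter, mem_Ioc] at hq
  rw [(Nat.prime_dvd_prime_iff_eq hp hq.2).1 hd]
  exact hq.1

/-- the weight of a subset -/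
def wt (z z1 : ℕ) (Sb : Finset (Fin 4)) : ℝ :=
  (∏ _i ∈ Sb, (VW 0 z1)⁻¹) * ∏ _i ∈ univ \ Sb, (VW 0 z)⁻¹

lemma wt_eq {z z1 : ℕ} (h : z ≤ z1) (Sb : Finset (Fin 4)) :
    wt z z1 Sb = (VW 0 z)⁻¹ ^ 4 * ((VW z z1) ^ Sb.card)⁻¹ := by
  have h0 := VW_pos 0 z
  have h1 := VW_pos z z1
  have hc : (univ \ Sb).card + Sb.card = 4 := by
    rw [Finset.card_sdiff_add_card_eq_card (subset_univ Sb), Finset.card_univ, Fintype.card_fin]
  have e4 : (VW 0 z)⁻¹ ^ 4 = (VW 0 z)⁻¹ ^ (univ \ Sb).card * (VW 0 z)⁻¹ ^ Sb.card := by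
    rw [← pow_add, hc]
  rw [wt, Finset.prod_const, Finset.prod_const, VW_split (Nat.zero_le z) h, mul_inv, mul_pow,
    e4, inv_pow (VW z z1)]
  ring

lemma wt_le {z z1 : ℕ} (h : z ≤ z1) (Sb : Finset (Fin 4)) : wt z z1 Sb ≤ (VW 0 z1)⁻¹ ^ 4 := by
  have h0 := VW_pos 0 z
  have h1 := VW_pos 0 z1
  have hle : (VW 0 z)⁻¹ ≤ (VW 0 z1)⁻¹ := by
    apply inv_anti₀ h1
    rw [VW_split (Nat.zero_le z) h]
    exact mul_le_of_le_one_right h0.le (VW_le_one _ _)
  have hc : (univ \ Sb).card + Sb.card = 4 := by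
    rw [Finset.card_sdiff_add_card_eq_card (subset_univ Sb), Finset.card_univ, Fintype.card_fin]
  have e4 : (VW 0 z1)⁻¹ ^ 4 = (VW 0 z1)⁻¹ ^ Sb.card * (VW 0 z1)⁻¹ ^ (univ \ Sb).card := by
    rw [← pow_add, add_comm, hc]
  rw [wt, Finset.prod_const, Finset.prod_const, e4]
  gcongr

lemma wt_nonneg (z z1 : ℕ) (Sb : Finset (Fin 4)) : 0 ≤ wt z z1 Sb := by
  have h0 := VW_pos 0 z
  have h1 := VW_pos 0 z1
  rw [wt]
  positivity

lemma card_Om_le {w y z M : ℕ} {x θ : Fin 4 → ℤ} {c : ℤ} {Sb : Finset (Fin 4)} {p : ℕ}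
    (hp : 0 < p) : ((Om w y z M x θ c Sb p).card : ℝ) / p ≤ 1 := by
  classical
  have hp0 : (0 : ℝ) < p := by exact_mod_cast hp
  rw [div_le_one hp0]
  have : (Om w y z M x θ c Sb p).card ≤ p := by
    calc _ ≤ (range p).card := card_le_card (filter_subset _ _)
      _ = p := card_range p
  exact_mod_cast this

/-- the local density at the primes `≤ z` -/
def A0 (w y z M : ℕ) (x θ : Fin 4 → ℤ) (c : ℤ) : ℝ :=
  ∏ p ∈ (Ioc 0 z).filter Nat.Prime, (1 - ((Om w y z M x θ c ∅ p).card : ℝ) / p)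

lemma A0_nonneg (w y z M : ℕ) (x θ : Fin 4 → ℤ) (c : ℤ) : 0 ≤ A0 w y z M x θ c :=
  Finset.prod_nonneg fun p hp => by
    have := card_Om_le (w := w) (y := y) (z := z) (M := M) (x := x) (θ := θ) (c := c) (Sb := ∅)
      (mem_filter.1 hp).2.pos
    linarith

/-- the product over the large primes -/
def PS (z z1 M : ℕ) (x θ : Fin 4 → ℤ) (c : ℤ) (Sb : Finset (Fin 4)) : ℝ :=
  ∏ p ∈ (Ioc z z1).filter Nat.Prime,
      (1 - ((NT M x θ c Sb p).card : ℝ) / p) / (1 - 1 / (p : ℝ)) ^ Sb.card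

lemma wt_mul {w y z z1 M : ℕ} {x θ : Fin 4 → ℤ} {c : ℤ} (Sb : Finset (Fin 4)) (hyz : y ≤ z)
    (h : z ≤ z1) :
    wt z z1 Sb * ∏ p ∈ (Ioc 0 z1).filter Nat.Prime,
      (1 - ((Om w y z M x θ c Sb p).card : ℝ) / p) =
      ((VW 0 z)⁻¹ ^ 4 * A0 w y z M x θ c) * PS z z1 M x θ c Sb := by
  rw [wt_eq h, prod_split _ (Nat.zero_le z) h, PS, Finset.prod_div_distrib, Finset.prod_pow,
    A0]
  have e1 : ∏ p ∈ (Ioc 0 z).filter Nat.Prime, (1 - ((Om w y z M x θ c Sb p).card : ℝ) / p) =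
      ∏ p ∈ (Ioc 0 z).filter Nat.Prime, (1 - ((Om w y z M x θ c ∅ p).card : ℝ) / p) :=
    Finset.prod_congr rfl fun p hp => by
      rw [Om_eq_low (mem_Ioc.1 (mem_filter.1 hp).1).2]
  have e2 : ∏ p ∈ (Ioc z z1).filter Nat.Prime, (1 - ((Om w y z M x θ c Sb p).card : ℝ) / p) =
      ∏ p ∈ (Ioc z z1).filter Nat.Prime, (1 - ((NT M x θ c Sb p).card : ℝ) / p) :=
    Finset.prod_congr rfl fun p hp => by
      have := (mem_Ioc.1 (mem_filter.1 hp).1).1
      rw [Om_eq_high (lt_of_le_of_lt hyz this) this]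
  have e3 : ∏ p ∈ (Ioc z z1).filter Nat.Prime, (1 - 1 / (p : ℝ)) = VW z z1 := rfl
  rw [e1, e2, e3, div_eq_mul_inv]
  ring

lemma G0_le {w y z M : ℕ} {x θ : Fin 4 → ℤ} {c : ℤ} (hy : 2 ≤ y) (hyz : y ≤ z)
    (hD : Dl c M x θ ≠ 0) (hMc : ∀ p : ℕ, p.Prime → y < p → ¬ p ∣ M)
    (hc : ∀ p : ℕ, p.Prime → ∀ i, ¬ ((p : ℤ) ∣ M * x i ∧ (p : ℤ) ∣ c)) :
    (VW 0 z)⁻¹ ^ 4 * A0 w y z M x θ c ≤ 256 * (VW 0 y)⁻¹ ^ 4 * hq y (Dl c M x θ) := by
  have h0 := VW_pos 0 y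
  have h1 := VW_pos y z
  rw [VW_split (Nat.zero_le y) hyz, A0, prod_split _ (Nat.zero_le y) hyz]
  have e2 : ∏ p ∈ (Ioc y z).filter Nat.Prime, (1 - ((Om w y z M x θ c ∅ p).card : ℝ) / p) =
      ∏ p ∈ (Ioc y z).filter Nat.Prime, (1 - ((NT M x θ c univ p).card : ℝ) / p) :=
    Finset.prod_congr rfl fun p hp => by
      have := mem_Ioc.1 (mem_filter.1 hp).1
      rw [Om_eq_mid this.1 this.2]
  have h2 : ∏ p ∈ (Ioc 0 y).filter Nat.Prime, (1 - ((Om w y z M x θ c ∅ p).card : ℝ) / p) ≤ 1 :=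
    Finset.prod_le_one (fun p hp => by
      have := card_Om_le (w := w) (y := y) (z := z) (M := M) (x := x) (θ := θ) (c := c) (Sb := ∅)
        (mem_filter.1 hp).2.pos
      linarith) (fun p _ => by
      have : (0 : ℝ) ≤ ((Om w y z M x θ c ∅ p).card : ℝ) / p := by positivity
      linarith)
  have h3 : 0 ≤ ∏ p ∈ (Ioc y z).filter Nat.Prime,
      (1 - ((Om w y z M x θ c ∅ p).card : ℝ) / p) :=
    Finset.prod_nonneg fun p hp => by
      have := card_Om_le (w := w) (y := y) (z := z) (M := M) (x := x) (θ := θ) (c := c) (Sb := ∅)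
        (mem_filter.1 hp).2.pos
      linarith
  have h4 := mid_est (z := z) hy hD hMc hc
  rw [Finset.prod_div_distrib, Finset.prod_pow] at h4
  have e3 : ∏ p ∈ (Ioc y z).filter Nat.Prime, (1 - 1 / (p : ℝ)) = VW y z := rfl
  rw [e3, ← e2] at h4
  calc (VW 0 y * VW y z)⁻¹ ^ 4 *
      ((∏ p ∈ (Ioc 0 y).filter Nat.Prime, (1 - ((Om w y z M x θ c ∅ p).card : ℝ) / p)) *
        ∏ p ∈ (Ioc y z).filter Nat.Prime, (1 - ((Om w y z M x θ c ∅ p).card : ℝ) / p))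
      ≤ (VW 0 y * VW y z)⁻¹ ^ 4 * (1 *
        ∏ p ∈ (Ioc y z).filter Nat.Prime, (1 - ((Om w y z M x θ c ∅ p).card : ℝ) / p)) := by
        gcongr
    _ = (VW 0 y)⁻¹ ^ 4 * ((∏ p ∈ (Ioc y z).filter Nat.Prime,
        (1 - ((Om w y z M x θ c ∅ p).card : ℝ) / p)) / VW y z ^ 4) := by
        rw [mul_inv, mul_pow, one_mul, inv_pow (VW y z), div_eq_mul_inv]
        ring
    _ ≤ (VW 0 y)⁻¹ ^ 4 * (256 * hq y (Dl c M x θ)) := by
        gcongr
    _ = _ := by ring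

/-- FLB. -/
theorem t_FLB (h1 : S_FLC) (h2 : S_MER) : ∀ c : ℤ, c ≠ 0 → S_FLB c := by
  classical
  obtain ⟨K0, hK0, hF⟩ := h1
  obtain ⟨C, hC1, -, hC⟩ := h2
  intro c hc0
  obtain ⟨N, hN⟩ := exists_nat_ge (16 * C ^ 4)
  refine ⟨K0 + 5 + N + 1000000, by omega, ?_⟩
  intro b w y z z1 M x θ J1 J2 hKb hKz hw hcw hwy hyz hzz1 hMd hJ hD
  obtain ⟨K, hK⟩ : ∃ K : ℕ, K = K0 + 5 + N + 1000000 := ⟨_, rfl⟩
  rw [← hK] at hKb hKz ⊢
  have hL : 0 ≤ (J2 : ℝ) - J1 := by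
    have : (J1 : ℝ) ≤ J2 := by exact_mod_cast hJ
    linarith
  have hVy := VW_pos 0 y
  have hqy := one_le_hq y (Dl c M x θ)
  have hqz := one_le_hq z (Dl c M x θ)
  have hqzy := hq_mono hyz (Dl c M x θ)
  have hz0 : (0 : ℝ) < z := by
    have : 0 < z := by omega
    exact_mod_cast this
  by_cases hbad : ∃ i, ∃ p : ℕ, p.Prime ∧ (p : ℤ) ∣ x i ∧ (p : ℤ) ∣ c
  · obtain ⟨i, p, hp, hpx, hpc⟩ := hbad
    have hpw : p ≤ w := by
      have h3 : p ∣ c.natAbs := Int.natCast_dvd.1 hpc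
      exact (Nat.le_of_dvd (Int.natAbs_pos.2 hc0) h3).trans hcw
    have hn : ∀ t : ℤ, (p : ℤ) ∣ (M : ℤ) * x i * (t + θ i) + c := fun t =>
      dvd_add (Dvd.dvd.mul_right (Dvd.dvd.mul_left hpx _) _) hpc
    have hS : ∑ t ∈ Ioc J1 J2, ∏ i, (rg w y (t + θ i) *
        dz z z1 (M * x i * (t + θ i) + c)) = 0 := by
      refine Finset.sum_eq_zero fun t _ => Finset.prod_eq_zero (mem_univ i) ?_
      rw [dz, lz, lz, if_neg, if_neg, sub_zero, mul_zero]
      · intro hR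
        exact hR p hp hp.pos (by omega) (hn t)
      · intro hR
        exact hR p hp hp.pos (by omega) (hn t)
    rw [hS, abs_zero]
    have : 0 ≤ hq z (Dl c M x θ) - 1 := by linarith
    positivity
  · push Not at hbad
    have hcp : ∀ p : ℕ, p.Prime → ∀ i, ¬ ((p : ℤ) ∣ M * x i ∧ (p : ℤ) ∣ c) := by
      rintro p hp i ⟨h3, h4⟩
      have hpw : p ≤ w := by
        have h5 : p ∣ c.natAbs := Int.natCast_dvd.1 h4
        exact (Nat.le_of_dvd (Int.natAbs_pos.2 hc0) h5).trans hcw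
      rcases (Nat.prime_iff_prime_int.1 hp).dvd_or_dvd h3 with h5 | h5
      · have h6 := (dvd_PP hp ((Int.natCast_dvd_natCast.1 h5).trans hMd)).1
        omega
      · exact hbad i p hp h5 h4
    have hMc : ∀ p : ℕ, p.Prime → y < p → ¬ p ∣ M := by
      intro p hp hyp h3
      have h6 := (dvd_PP hp (h3.trans hMd)).2
      omega
    have hz1 : 2 ≤ z1 := by omega
    obtain ⟨G, hG⟩ : ∃ G : ℝ, G = (VW 0 z)⁻¹ ^ 4 * A0 w y z M x θ c := ⟨_, rfl⟩
    have hG0 : 0 ≤ G := by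
      rw [hG]
      exact mul_nonneg (pow_nonneg (inv_nonneg.2 (VW_pos 0 z).le) _) (A0_nonneg _ _ _ _ _ _ _)
    have hGle : G ≤ 256 * (VW 0 y)⁻¹ ^ 4 * hq y (Dl c M x θ) := by
      rw [hG]
      exact G0_le (by omega) hyz hD hMc hcp
    set δ : ℝ := (1 + 192 / z) * hq z (Dl c M x θ) - 1 with hδ
    have hPS : ∀ Sb, |PS z z1 M x θ c Sb - 1| ≤ δ := fun Sb =>
      high_est Sb (by omega) hzz1 hD (fun p hp h => hMc p hp (by omega)) hcp
    have hPSle : ∀ Sb, PS z z1 M x θ c Sb ≤ 2 * hq z (Dl c M x θ) := by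
      intro Sb
      have h3 := (abs_le.1 (hPS Sb)).2
      have h4 : 192 / (z : ℝ) ≤ 1 := by
        rw [div_le_one hz0]
        have : 192 ≤ z := by omega
        exact_mod_cast this
      rw [hδ] at h3
      nlinarith
    -- the count
    let cnt : Finset (Fin 4) → ℝ := fun Sb => (((Ioc J1 J2).filter (fun t : ℤ =>
      ∀ p : ℕ, p.Prime → p ≤ z1 → (t % p).toNat ∉ Om w y z M x θ c Sb p)).card : ℝ)
    have hcnt : ∀ Sb, |wt z z1 Sb * cnt Sb - ((J2 : ℝ) - J1) * (G * PS z z1 M x θ c Sb)| ≤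
        (1 / 2 : ℝ) ^ b * (((J2 : ℝ) - J1) * (G * PS z z1 M x θ c Sb)) +
          (VW 0 z1)⁻¹ ^ 4 * (z1 : ℝ) ^ (K0 * b) := by
      intro Sb
      have h3 := hF b z1 (Om w y z M x θ c Sb) J1 J2 (by omega) hz1
        (fun p hp _ => ⟨filter_subset _ _, Om_card_le hp (hcp p hp)⟩) hJ
      have h4 := wt_mul (w := w) (y := y) (M := M) (x := x) (θ := θ) (c := c) Sb hyz hzz1
      rw [← hG] at h4
      rw [← h4]
      have h5 := mul_le_mul_of_nonneg_left h3 (wt_nonneg z z1 Sb)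
      rw [← abs_of_nonneg (wt_nonneg z z1 Sb), ← abs_mul, abs_of_nonneg (wt_nonneg z z1 Sb)] at h5
      have h6 : wt z z1 Sb * (z1 : ℝ) ^ (K0 * b) ≤ (VW 0 z1)⁻¹ ^ 4 * (z1 : ℝ) ^ (K0 * b) :=
        mul_le_mul_of_nonneg_right (wt_le hzz1 Sb) (by positivity)
      refine le_trans (le_of_eq ?_) (h5.trans (le_trans (le_of_eq ?_) (add_le_add_right h6 _)))
      · congr 1
        simp only [cnt]
        ring
      · ring
    -- the sum
    have hsum : ∑ t ∈ Ioc J1 J2, ∏ i, (rg w y (t + θ i) * dz z z1 (M * x i * (t + θ i) + c)) =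
        ∑ Sb ∈ (univ : Finset (Fin 4)).powerset, (∏ _i ∈ univ \ Sb, (-1 : ℝ)) *
          (wt z z1 Sb * cnt Sb) := by
      rw [Finset.sum_congr rfl fun t _ => expand w y z z1 M x θ c t, Finset.sum_comm]
      refine Finset.sum_congr rfl fun Sb _ => ?_
      rw [← Finset.mul_sum]
      congr 1
      rw [Finset.sum_congr rfl fun t _ => ind_eq Sb hyz hzz1 t, ← Finset.sum_filter,
        Finset.sum_const, nsmul_eq_mul, mul_comm, wt]
      congr 1
      simp only [cnt]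
      congr 2
      refine Finset.filter_congr fun t _ => ?_
      exact forall_congr' fun p => forall_congr' fun hp => forall_congr' fun _ =>
        (not_mem_Om hp.pos t).symm
    have hsgn : ∑ Sb ∈ (univ : Finset (Fin 4)).powerset, (∏ _i ∈ univ \ Sb, (-1 : ℝ)) = 0 := by
      have := Finset.prod_add (fun _ : Fin 4 => (1 : ℝ)) (fun _ => -1) univ
      simp only [Finset.prod_const_one, one_mul] at this
      rw [← this]
      simp
    have habs : ∀ Sb : Finset (Fin 4), |∏ _i ∈ univ \ Sb, (-1 : ℝ)| = 1 := by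
      intro Sb
      rw [Finset.prod_const, abs_pow, abs_neg, abs_one, one_pow]
    have hfin : |∑ t ∈ Ioc J1 J2, ∏ i, (rg w y (t + θ i) *
        dz z z1 (M * x i * (t + θ i) + c))| ≤
        16 * ((1 / 2 : ℝ) ^ b * (((J2 : ℝ) - J1) * (G * (2 * hq z (Dl c M x θ)))) +
          (VW 0 z1)⁻¹ ^ 4 * (z1 : ℝ) ^ (K0 * b) + ((J2 : ℝ) - J1) * G * δ) := by
      have e : ∑ t ∈ Ioc J1 J2, ∏ i, (rg w y (t + θ i) *
          dz z z1 (M * x i * (t + θ i) + c)) =
          ∑ Sb ∈ (univ : Finset (Fin 4)).powerset, (∏ _i ∈ univ \ Sb, (-1 : ℝ)) *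
            (wt z z1 Sb * cnt Sb - ((J2 : ℝ) - J1) * G) := by
        rw [hsum]
        simp only [mul_sub]
        rw [Finset.sum_sub_distrib, ← Finset.sum_mul, hsgn]
        ring
      rw [e]
      refine (Finset.abs_sum_le_sum_abs _ _).trans ?_
      have hcard : ((univ : Finset (Fin 4)).powerset.card : ℝ) = 16 := by
        rw [Finset.card_powerset, Finset.card_univ, Fintype.card_fin]; norm_num
      rw [← hcard, ← nsmul_eq_mul]
      refine Finset.sum_le_card_nsmul _ _ _ fun Sb _ => ?_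
      rw [abs_mul, habs, one_mul]
      have h3 := hcnt Sb
      have h4 := hPS Sb
      have h5 := hPSle Sb
      have e2 : wt z z1 Sb * cnt Sb - ((J2 : ℝ) - J1) * G =
          (wt z z1 Sb * cnt Sb - ((J2 : ℝ) - J1) * (G * PS z z1 M x θ c Sb)) +
          ((J2 : ℝ) - J1) * G * (PS z z1 M x θ c Sb - 1) := by ring
      rw [e2]
      refine (abs_add_le _ _).trans (add_le_add (h3.trans (add_le_add_left ?_ _)) ?_)
      · gcongr
      · rw [abs_mul, abs_of_nonneg (mul_nonneg hL hG0)]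
        gcongr
    refine hfin.trans ?_
    -- the error term with `z1`
    have hz1z : (z1 : ℝ) ≥ 1 := by exact_mod_cast (by omega : 1 ≤ z1)
    have hV1 : (VW 0 z1)⁻¹ ≤ C * z1 := by
      refine (hC z1 hz1).2.trans ?_
      gcongr
      have := Real.log_le_sub_one_of_pos (show (0 : ℝ) < z1 by linarith)
      linarith
    have herr : 16 * ((VW 0 z1)⁻¹ ^ 4 * (z1 : ℝ) ^ (K0 * b)) ≤ (z1 : ℝ) ^ (K * b) := by
      have h3 : (VW 0 z1)⁻¹ ^ 4 ≤ (C * z1) ^ 4 :=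
        pow_le_pow_left₀ (inv_nonneg.2 (VW_pos 0 z1).le) hV1 4
      have h4 : 16 * C ^ 4 ≤ z1 := by
        have : (N : ℝ) ≤ z1 := by exact_mod_cast (by omega : N ≤ z1)
        linarith
      calc 16 * ((VW 0 z1)⁻¹ ^ 4 * (z1 : ℝ) ^ (K0 * b))
          ≤ 16 * ((C * z1) ^ 4 * (z1 : ℝ) ^ (K0 * b)) := by gcongr
        _ = (16 * C ^ 4) * ((z1 : ℝ) ^ 4 * (z1 : ℝ) ^ (K0 * b)) := by ring
        _ ≤ z1 * ((z1 : ℝ) ^ 4 * (z1 : ℝ) ^ (K0 * b)) := by gcongr
        _ = (z1 : ℝ) ^ (5 + K0 * b) := by rw [pow_add]; ring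
        _ ≤ (z1 : ℝ) ^ (K * b) := by
            apply pow_le_pow_right₀ hz1z
            have hb : 1 ≤ b := by omega
            have : (K0 + 5) * b ≤ K * b := Nat.mul_le_mul_right b (by omega)
            nlinarith
    -- the main terms
    obtain ⟨Q, hQ⟩ : ∃ Q : ℝ, Q = hq y (Dl c M x θ) := ⟨_, rfl⟩
    obtain ⟨R, hR⟩ : ∃ R : ℝ, R = hq z (Dl c M x θ) := ⟨_, rfl⟩
    obtain ⟨V, hV⟩ : ∃ V : ℝ, V = (VW 0 y)⁻¹ ^ 4 := ⟨_, rfl⟩
    obtain ⟨L, hLL⟩ : ∃ L : ℝ, L = (J2 : ℝ) - J1 := ⟨_, rfl⟩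
    obtain ⟨e, he⟩ : ∃ e : ℝ, e = (1 / 2 : ℝ) ^ b := ⟨_, rfl⟩
    obtain ⟨r, hr⟩ : ∃ r : ℝ, r = 1 / (z : ℝ) := ⟨_, rfl⟩
    have hV0 : 0 ≤ V := by rw [hV]; positivity
    have he0 : 0 ≤ e := by rw [he]; positivity
    have hr0 : 0 ≤ r := by rw [hr]; positivity
    have hδ' : δ = (R - 1) + 192 * r * R := by
      rw [hδ, hR, hr]; ring
    rw [← hQ, ← hV] at hGle
    rw [← hQ] at hqy hqzy
    rw [← hR] at hqz hqzy
    rw [← hLL] at hL
    rw [hδ', ← hQ, ← hR, ← hV, ← hLL, ← he, ← hr]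
    have hKr : (1000000 : ℝ) ≤ K := by
      have : 1000000 ≤ K := by omega
      exact_mod_cast this
    have hX : 0 ≤ V * L * (Q ^ 2 * (e + r) + Q * (R - 1)) := by
      have : 0 ≤ R - 1 := by linarith
      have : 0 ≤ Q := by linarith
      positivity
    have hmain : 16 * (e * (L * (G * (2 * R))) + L * G * ((R - 1) + 192 * r * R)) ≤
        1000000 * (V * L * (Q ^ 2 * (e + r) + Q * (R - 1))) := by
      have hR1 : 0 ≤ R - 1 := by linarith
      have hQ0 : 0 ≤ Q := by linarith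
      have hR0 : 0 ≤ R := by linarith
      calc 16 * (e * (L * (G * (2 * R))) + L * G * ((R - 1) + 192 * r * R))
          ≤ 16 * (e * (L * ((256 * V * Q) * (2 * Q))) +
            L * (256 * V * Q) * ((R - 1) + 192 * r * Q)) := by gcongr
        _ = V * L * (8192 * (Q ^ 2 * e) + 786432 * (Q ^ 2 * r) + 4096 * (Q * (R - 1))) := by ring
        _ ≤ V * L * (1000000 * (Q ^ 2 * e) + 1000000 * (Q ^ 2 * r) +
            1000000 * (Q * (R - 1))) := by
            gcongr <;> norm_num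
        _ = _ := by ring
    have hfinal : 1000000 * (V * L * (Q ^ 2 * (e + r) + Q * (R - 1))) ≤
        K * V * L * (Q ^ 2 * (e + r) + Q * (R - 1)) := by
      have := mul_le_mul_of_nonneg_right hKr hX
      linarith
    linarith

end

end Pool.Agent.N82.QL
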